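import Mathlib

open CategoryTheory Limits

namespace Pool.Agent.Q37.WN

universe w v u t

variable {C : Type u} [Category.{v} C] [Abelian C] {J : Type t} [HasColimitsOfShape (Discrete J) C]

section cop

/-- A family of complexes, seen as a complex in the category of families. -/
noncomputable def fam (K : J → CochainComplex C ℤ) :
    HomologicalComplex (Discrete J ⥤ C) (ComplexShape.up ℤ) where
  X n := Discrete.functor (fun j => (K j).X n)
  d n m := Discrete.natTrans (fun j => (K j.as).d n m)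
  shape n m h := by
    ext ⟨j⟩
    exact (K j).shape n m h
  d_comp_d' n m l _ _ := by
    ext ⟨j⟩
    exact (K j).d_comp_d n m l

/-- A family of morphisms, seen as a morphism in the category of families. -/
noncomputable def famMap {K L : J → CochainComplex C ℤ} (s : ∀ j, K j ⟶ L j) : fam K ⟶ fam L where
  f n := Discrete.natTrans (fun j => (s j.as).f n)
  comm' n m _ := by
    ext ⟨j⟩
    exact (s j).comm n m

omit [HasColimitsOfShape (Discrete J) C] in
lemma famMap_quasiIso {K L : J → CochainComplex C ℤ} (s : ∀ j, K j ⟶ L j)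
    (hs : ∀ j, QuasiIso (s j)) : QuasiIso (famMap s) := by
  rw [HomologicalComplex.quasiIso_iff_evaluation]
  rintro ⟨j⟩
  exact hs j

instance : (colim : (Discrete J ⥤ C) ⥤ C).PreservesZeroMorphisms := inferInstance

/-- Coproduct of a family of complexes. -/
noncomputable def cop (K : J → CochainComplex C ℤ) : CochainComplex C ℤ :=
  ((colim : (Discrete J ⥤ C) ⥤ C).mapHomologicalComplex _).obj (fam K)

noncomputable def copMap {K L : J → CochainComplex C ℤ} (s : ∀ j, K j ⟶ L j) : cop K ⟶ cop L :=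
  ((colim : (Discrete J ⥤ C) ⥤ C).mapHomologicalComplex _).map (famMap s)

lemma copMap_quasiIso [HasExactColimitsOfShape (Discrete J) C]
    {K L : J → CochainComplex C ℤ} (s : ∀ j, K j ⟶ L j)
    (hs : ∀ j, QuasiIso (s j)) : QuasiIso (copMap s) := by
  have := famMap_quasiIso s hs
  have h1 : (colim : (Discrete J ⥤ C) ⥤ C).PreservesHomology := inferInstance
  exact HomologicalComplex.quasiIso_map_of_preservesHomology (famMap s) (colim : (Discrete J ⥤ C) ⥤ C)

noncomputable def inj (K : J → CochainComplex C ℤ) (j : J) : K j ⟶ cop K where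
  f n := colimit.ι (Discrete.functor (fun j => (K j).X n)) ⟨j⟩
  comm' n m _ := by
    dsimp [cop]
    exact ι_colimMap ((fam K).d n m) ⟨j⟩ 

@[reassoc]
lemma inj_copMap {K L : J → CochainComplex C ℤ} (s : ∀ j, K j ⟶ L j) (j : J) :
    inj K j ≫ copMap s = s j ≫ inj L j := by
  ext n
  exact ι_colimMap ((famMap s).f n) ⟨j⟩

lemma cop_hom_ext {K : J → CochainComplex C ℤ} {L : CochainComplex C ℤ} {f g : cop K ⟶ L}
    (h : ∀ j, inj K j ≫ f = inj K j ≫ g) : f = g := by
  ext n
  refine colimit.hom_ext ?_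
  rintro ⟨j⟩
  exact congrArg (fun q : K j ⟶ L => q.f n) (h j)

lemma copX_hom_ext {K : J → CochainComplex C ℤ} {n : ℤ} {Z : C} {f g : (cop K).X n ⟶ Z}
    (h : ∀ j, (inj K j).f n ≫ f = (inj K j).f n ≫ g) : f = g := by
  refine colimit.hom_ext ?_
  rintro ⟨j⟩
  exact h j

noncomputable def descX (K : J → CochainComplex C ℤ) {n : ℤ} {Z : C} (f : ∀ j, (K j).X n ⟶ Z) :
    (cop K).X n ⟶ Z :=
  colimit.desc (Discrete.functor (fun j => (K j).X n)) (Cofan.mk Z f)

@[reassoc]
lemma inj_descX (K : J → CochainComplex C ℤ) {n : ℤ} {Z : C} (f : ∀ j, (K j).X n ⟶ Z) (j : J) :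
    (inj K j).f n ≫ descX K f = f j :=
  colimit.ι_desc (F := Discrete.functor (fun j => (K j).X n)) (Cofan.mk Z f) ⟨j⟩

noncomputable def desc (K : J → CochainComplex C ℤ) {L : CochainComplex C ℤ} (g : ∀ j, K j ⟶ L) :
    cop K ⟶ L where
  f n := descX K (fun j => (g j).f n)
  comm' n m _ := by
    refine copX_hom_ext fun j => ?_
    rw [← Category.assoc, inj_descX, HomologicalComplex.Hom.comm,
      HomologicalComplex.Hom.comm_assoc, inj_descX]

@[reassoc (attr := simp)]
lemma inj_desc (K : J → CochainComplex C ℤ) {L : CochainComplex C ℤ} (g : ∀ j, K j ⟶ L) (j : J) :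
    inj K j ≫ desc K g = g j := by
  ext n
  exact inj_descX K _ j

/-- Homotopies assemble. -/
noncomputable def descHomotopy {K : J → CochainComplex C ℤ} {L : CochainComplex C ℤ}
    (g : cop K ⟶ L) (h : ∀ j, Homotopy (inj K j ≫ g) 0) : Homotopy g 0 where
  hom a b := descX K (fun j => (h j).hom a b)
  zero a b hab := by
    refine copX_hom_ext fun j => ?_
    rw [inj_descX, (h j).zero a b hab, comp_zero]
  comm n := by
    refine copX_hom_ext fun j => ?_
    have h1 := (h j).comm n
    rw [HomologicalComplex.comp_f] at h1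
    rw [h1, dNext_eq _ (show (ComplexShape.up ℤ).Rel n (n + 1) from rfl),
      prevD_eq _ (show (ComplexShape.up ℤ).Rel (n - 1) n by simp),
      dNext_eq _ (show (ComplexShape.up ℤ).Rel n (n + 1) from rfl),
      prevD_eq _ (show (ComplexShape.up ℤ).Rel (n - 1) n by simp)]
    simp only [HomologicalComplex.zero_f, add_zero, Preadditive.comp_add]
    rw [HomologicalComplex.Hom.comm_assoc, inj_descX, inj_descX_assoc]

/-- The coproduct in complexes. -/
noncomputable def copIsColimit (K : J → CochainComplex C ℤ) :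
    IsColimit (Cofan.mk (cop K) (inj K)) :=
  Cofan.IsColimit.mk _ (fun s => desc K s.inj) (fun s j => inj_desc K _ j)
    (fun s m hm => cop_hom_ext fun j => by rw [inj_desc]; exact hm j)

end cop

section derived

open DerivedCategory

variable [HasDerivedCategory.{w} C]

lemma exists_fac_zero {K L : CochainComplex C ℤ} (f : K ⟶ L) (hf : Q.map f = 0) :
    ∃ (X : CochainComplex C ℤ) (t : X ⟶ K), QuasiIso t ∧ Nonempty (Homotopy (t ≫ f) 0) := by
  have h1 : Qh.map ((HomotopyCategory.quotient _ _).map f) = 0 := by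
    have h2 := quotientCompQhIso_hom_naturality f
    rw [hf, comp_zero] at h2
    rwa [← cancel_mono ((quotientCompQhIso C).hom.app L), zero_comp]
  rw [← Qh.map_zero, MorphismProperty.map_eq_iff_precomp Qh
    (HomotopyCategory.quasiIso C (ComplexShape.up ℤ))] at h1
  obtain ⟨X, s, hs, h⟩ := h1
  obtain ⟨X, rfl⟩ := HomotopyCategory.quotient_obj_surjective X
  obtain ⟨s, rfl⟩ := (HomotopyCategory.quotient _ _).map_surjective s
  refine ⟨X, s, ?_, ⟨HomotopyCategory.homotopyOfEq _ _ ?_⟩⟩
  · rwa [HomotopyCategory.quotient_map_mem_quasiIso_iff] at hs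
  · rw [Functor.map_comp, h, comp_zero, Functor.map_zero]

variable [HasExactColimitsOfShape (Discrete J) C]

lemma exists_desc (K : J → CochainComplex C ℤ) {L : CochainComplex C ℤ}
    (f : ∀ j, Q.obj (K j) ⟶ Q.obj L) :
    ∃ g : Q.obj (cop K) ⟶ Q.obj L, ∀ j, Q.map (inj K j) ≫ g = f j := by
  choose X s hs g hg using fun j => right_fac (f j)
  have h1 : QuasiIso (copMap s) :=
    copMap_quasiIso s (fun j => (isIso_Q_map_iff_quasiIso C (s j)).1 (hs j))
  refine ⟨inv (Q.map (copMap s)) ≫ Q.map (desc X g), fun j => ?_⟩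
  have := hs j
  rw [hg j, ← cancel_epi (Q.map (s j)), IsIso.hom_inv_id_assoc, ← Category.assoc, ← Q.map_comp,
    ← inj_copMap, Q.map_comp, Category.assoc, IsIso.hom_inv_id_assoc, ← Q.map_comp, inj_desc]

lemma hom_ext_zero (K : J → CochainComplex C ℤ) {L : CochainComplex C ℤ}
    (f : Q.obj (cop K) ⟶ Q.obj L) (hf : ∀ j, Q.map (inj K j) ≫ f = 0) : f = 0 := by
  obtain ⟨L', g, s, hs, rfl⟩ := left_fac f
  have h1 : ∀ j, Q.map (inj K j ≫ g) = 0 := by
    intro j
    have := hf j
    rw [← Category.assoc, ← Q.map_comp] at this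
    rw [← cancel_mono (inv (Q.map s)), this, zero_comp]
  choose X t ht h using fun j => exists_fac_zero _ (h1 j)
  have h2 : QuasiIso (copMap t) := copMap_quasiIso t ht
  have h3 : Homotopy (copMap t ≫ g) 0 := descHomotopy _ (fun j =>
    (Homotopy.ofEq (by rw [← Category.assoc, inj_copMap, Category.assoc])).trans (h j).some)
  have h4 := Q_map_eq_of_homotopy C h3
  rw [Q.map_comp, Q.map_zero] at h4
  have h5 : Q.map g = 0 := by
    rw [← cancel_epi (Q.map (copMap t)), h4, comp_zero]
  rw [h5, zero_comp]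

lemma hom_ext' (K : J → CochainComplex C ℤ) {L : DerivedCategory C}
    (f g : Q.obj (cop K) ⟶ L) (hf : ∀ j, Q.map (inj K j) ≫ f = Q.map (inj K j) ≫ g) : f = g := by
  obtain ⟨L', ⟨e⟩⟩ : ∃ L' : CochainComplex C ℤ, Nonempty (L ≅ Q.obj L') :=
    ⟨_, ⟨(Q.objObjPreimageIso L).symm⟩⟩
  rw [← cancel_mono e.hom, ← sub_eq_zero]
  apply hom_ext_zero
  intro j
  rw [Preadditive.comp_sub, sub_eq_zero, ← Category.assoc, ← Category.assoc, hf j]

lemma exists_desc' (K : J → CochainComplex C ℤ) {L : DerivedCategory C}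
    (f : ∀ j, Q.obj (K j) ⟶ L) :
    ∃ g : Q.obj (cop K) ⟶ L, ∀ j, Q.map (inj K j) ≫ g = f j := by
  obtain ⟨L', ⟨e⟩⟩ : ∃ L' : CochainComplex C ℤ, Nonempty (L ≅ Q.obj L') :=
    ⟨_, ⟨(Q.objObjPreimageIso L).symm⟩⟩
  obtain ⟨g, hg⟩ := exists_desc K (fun j => f j ≫ e.hom)
  refine ⟨g ≫ e.inv, fun j => ?_⟩
  rw [← Category.assoc, hg j, Category.assoc, e.hom_inv_id, Category.comp_id]

/-- `Q` sends the coproduct of complexes to a coproduct in the derived category. -/
noncomputable def copIsColimitQ (K : J → CochainComplex C ℤ) :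
    IsColimit (Cofan.mk (Q.obj (cop K)) (fun j => Q.map (inj K j))) :=
  Cofan.IsColimit.mk _ (fun s => (exists_desc' K s.inj).choose)
    (fun s j => (exists_desc' K s.inj).choose_spec j)
    (fun s m hm => hom_ext' K _ _ fun j => by
      rw [(exists_desc' K s.inj).choose_spec j]; exact hm j)

lemma prop_single_of_isColimit (P : ObjectProperty (DerivedCategory C))
    [P.IsClosedUnderColimitsOfShape (Discrete J)] [P.IsClosedUnderIsomorphisms]
    (M : J → C) (c : Cofan M) (hc : IsColimit c)
    (h : ∀ j, P ((DerivedCategory.singleFunctor C 0).obj (M j))) :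
    P ((DerivedCategory.singleFunctor C 0).obj c.pt) := by
  let S := HomologicalComplex.single C (ComplexShape.up ℤ) 0
  have h1 : P (Q.obj (cop (fun j => S.obj (M j)))) :=
    P.prop_of_isColimit (copIsColimitQ _) (fun ⟨j⟩ => h j)
  have e : cop (fun j => S.obj (M j)) ≅ S.obj c.pt :=
    IsColimit.coconePointsIsoOfNatIso (copIsColimit _) (isColimitOfPreserves S hc)
      (Discrete.natIso fun _ => Iso.refl _)
  exact P.prop_of_iso (Q.mapIso e) h1

end derived

end Pool.Agent.Q37.WN
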