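import Pool.Agent.Q37.WN.Main

open PowerSeries

namespace Pool.Agent.Q37.WN

variable (k : Type) [Field k]

/-- Sequences of power series with the same constant coefficient `c`, almost all equal to `c`. -/
noncomputable def BR : Subring (ℕ → PowerSeries k) where
  carrier := {f | ∃ c : k, (∀ i, constantCoeff (f i) = c) ∧ {i | f i ≠ C c}.Finite}
  mul_mem' := by
    rintro f g ⟨c, hc, hf⟩ ⟨d, hd, hg⟩
    refine ⟨c * d, fun i => by rw [Pi.mul_apply, map_mul, hc, hd], (hf.union hg).subset ?_⟩
    intro i hi
    by_contra h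
    simp only [Set.mem_union, Set.mem_ofPred_eq, not_or, not_not] at h
    exact hi (by rw [Pi.mul_apply, h.1, h.2, map_mul])
  one_mem' := ⟨1, fun i => by simp, by simp⟩
  add_mem' := by
    rintro f g ⟨c, hc, hf⟩ ⟨d, hd, hg⟩
    refine ⟨c + d, fun i => by rw [Pi.add_apply, map_add, hc, hd], (hf.union hg).subset ?_⟩
    intro i hi
    by_contra h
    simp only [Set.mem_union, Set.mem_ofPred_eq, not_or, not_not] at h
    exact hi (by rw [Pi.add_apply, h.1, h.2, map_add])
  zero_mem' := ⟨0, fun i => by simp, by simp⟩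
  neg_mem' := by
    rintro f ⟨c, hc, hf⟩
    refine ⟨-c, fun i => by rw [Pi.neg_apply, map_neg, hc], hf.subset ?_⟩
    intro i hi h
    exact hi (by rw [Pi.neg_apply, h, map_neg])

namespace BR

variable {k}

/-- The `i`-th coordinate. -/
noncomputable def ev (i : ℕ) : BR k →+* PowerSeries k :=
  (Pi.evalRingHom (fun _ => PowerSeries k) i).comp (BR k).subtype

lemma ev_apply (i : ℕ) (f : BR k) : ev i f = (f : ℕ → PowerSeries k) i := rfl

lemma ext {f g : BR k} (h : ∀ i, ev i f = ev i g) : f = g := Subtype.ext (funext h)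

lemma const_eq (f : BR k) (i j : ℕ) : constantCoeff (ev i f) = constantCoeff (ev j f) := by
  obtain ⟨f, c, hc, hf⟩ := f
  exact (hc i).trans (hc j).symm

/-- The element with `i`-th coordinate `g`. -/
noncomputable def sec (i : ℕ) (g : PowerSeries k) : BR k :=
  ⟨Function.update (fun _ => C (constantCoeff g)) i g, constantCoeff g, by
    intro j
    by_cases h : j = i
    · subst h; rw [Function.update_self]
    · rw [Function.update_of_ne h]; simp, (Set.finite_singleton i).subset (by
    intro j hj
    by_contra h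
    exact hj (Function.update_of_ne h _ _))⟩

lemma ev_sec (i : ℕ) (g : PowerSeries k) : ev i (sec i g) = g :=
  Function.update_self (β := fun _ : ℕ => PowerSeries k) i g (fun _ => C (constantCoeff g))

lemma ev_sec_ne (i j : ℕ) (h : j ≠ i) (g : PowerSeries k) :
    ev j (sec i g) = C (constantCoeff g) :=
  Function.update_of_ne (β := fun _ : ℕ => PowerSeries k) h g (fun _ => C (constantCoeff g))

/-- The uniformizer of the `i`-th branch. -/
noncomputable def tt (i : ℕ) : BR k := sec i X

lemma ev_tt (i : ℕ) : ev i (tt i : BR k) = X := ev_sec _ _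

lemma ev_tt_ne (i j : ℕ) (h : j ≠ i) : ev j (tt i : BR k) = 0 := by
  rw [tt, ev_sec_ne i j h]; simp

lemma span_tt : Ideal.span (Set.range (tt : ℕ → BR k)) =
    RingHom.ker ((constantCoeff (R := k)).comp (ev 0)) := by
  apply le_antisymm
  · rw [Ideal.span_le]
    rintro _ ⟨i, rfl⟩
    rw [SetLike.mem_coe, RingHom.mem_ker, RingHom.comp_apply, const_eq _ 0 i, ev_tt]
    simp
  · intro f hf
    rw [RingHom.mem_ker, RingHom.comp_apply] at hf
    have h0 : ∀ i, constantCoeff (ev i f) = 0 := fun i => by rw [const_eq f i 0, hf]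
    have hfin : {i | ev i f ≠ 0}.Finite := by
      obtain ⟨f, c, hc, hf'⟩ := f
      have : c = 0 := (hc 0).symm.trans (h0 0)
      subst this
      rw [map_zero] at hf'
      exact hf'
    choose g hg using fun i => X_dvd_iff.2 (h0 i)
    have key : f = ∑ i ∈ hfin.toFinset, tt i * sec i (g i) := by
      apply ext
      intro j
      rw [map_sum]
      by_cases hj : j ∈ hfin.toFinset
      · rw [Finset.sum_eq_single j]
        · rw [map_mul, ev_tt, ev_sec, hg j]
        · intro i _ hi
          rw [map_mul, ev_tt_ne i j (Ne.symm hi), zero_mul]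
        · exact fun h => absurd hj h
      · rw [Finset.sum_eq_zero]
        · by_contra h
          exact hj (hfin.mem_toFinset.2 h)
        · intro i hi
          rw [map_mul, ev_tt_ne i j (fun h => hj (h ▸ hi)), zero_mul]
    rw [key]
    exact Ideal.sum_mem _ fun i _ => Ideal.mul_mem_right _ _ (Ideal.subset_span ⟨i, rfl⟩)

/-- The bouquet. -/
noncomputable def bouquet : Bouquet (BR k) where
  m := RingHom.ker ((constantCoeff (R := k)).comp (ev 0))
  p i := RingHom.ker (ev i)
  t := tt
  hm := RingHom.ker_isMaximal_of_surjective _ (fun c => ⟨sec 0 (C c), by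
    rw [RingHom.comp_apply, ev_sec]; simp⟩)
  hp i := RingHom.ker_isPrime _
  le i := by
    intro f hf
    rw [RingHom.mem_ker] at hf ⊢
    rw [RingHom.comp_apply, const_eq f 0 i, hf, map_zero]
  ann i r := by
    rw [RingHom.mem_ker]
    constructor
    · intro h
      apply ext
      intro j
      rw [map_mul, map_zero]
      by_cases hj : j = i
      · subst hj; rw [h, mul_zero]
      · rw [ev_tt_ne i j hj, zero_mul]
    · intro h
      have h1 := congrArg (ev i) h
      rw [map_mul, map_zero, ev_tt] at h1
      exact (mul_eq_zero.1 h1).resolve_left X_ne_zero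
  orth i j h := by
    apply ext
    intro l
    rw [map_mul, map_zero]
    by_cases hl : l = i
    · subst hl
      rw [ev_tt_ne j l h, mul_zero]
    · rw [ev_tt_ne i l hl, zero_mul]
  span := span_tt
  ne i := by
    rw [RingHom.mem_ker, ev_tt]
    exact X_ne_zero
  dvr i r hr := by
    rw [RingHom.mem_ker] at hr
    obtain ⟨n, u, hu⟩ := IsDiscreteValuationRing.eq_unit_mul_pow_irreducible hr
      (X_prime (R := k)).irreducible
    refine ⟨n, sec i (u⁻¹ : (PowerSeries k)ˣ), ?_⟩
    rw [RingHom.mem_ker, map_sub, map_mul, map_pow, ev_tt, ev_sec, hu, mul_comm, ← mul_assoc,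
      Units.inv_mul, one_mul, sub_self]

end BR

end Pool.Agent.Q37.WN
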