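import Pool.Agent.Q37.WN.Res
import Pool.Agent.Q37.WN.Ring

open CategoryTheory Limits DirectSum

namespace Pool.Agent.Q37.WN

universe w w'

section transfer

variable {R : Type} [CommRing R] [HasDerivedCategory.{w} (ModuleCat.{0} R)]
  {P : ObjectProperty (DerivedCategory (ModuleCat.{0} R))}

/-- Vector spaces over an `R`-algebra which is a field. -/
lemma IsLocalizing.holds_vectorSpace (hP : IsLocalizing P) (K : Type) [Field K] [Algebra R K]
    (V : Type) [AddCommGroup V] [Module K V] [Module R V] [IsScalarTower R K V]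
    (h : Holds P K) : Holds P V := by
  classical
  let b := Module.Basis.ofVectorSpace K V
  refine hP.iso ?_ (hP.sum (fun _ : Module.Basis.ofVectorSpaceIndex K V => K) (fun _ => h))
  exact ((b.repr.trans (finsuppLEquivDirectSum K K _)).symm).restrictScalars R

/-- All residue fields of `R` lie in `P`. -/
def ContainsResidueFields (P : ObjectProperty (DerivedCategory (ModuleCat.{0} R))) : Prop :=
  ∀ q : PrimeSpectrum R, Holds P q.asIdeal.ResidueField

variable (A : Type) [CommRing A] [Algebra R A] [HasDerivedCategory.{w'} (ModuleCat.{0} A)]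

lemma IsLocalizing.containsResidueFields_restrict (hP : IsLocalizing P)
    (h : ContainsResidueFields P) : ContainsResidueFields (P.inverseImage (res R A)) := by
  intro q
  rw [holds_inverseImage_iff hP]
  let p : Ideal R := q.asIdeal.comap (algebraMap R A)
  have hp : p.IsPrime := Ideal.comap_isPrime _ _
  let f := Ideal.ResidueField.map p q.asIdeal (algebraMap R A) rfl
  let _ : Algebra p.ResidueField q.asIdeal.ResidueField := f.toAlgebra
  have : IsScalarTower R p.ResidueField q.asIdeal.ResidueField := by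
    refine IsScalarTower.of_algebraMap_eq fun r => ?_
    rw [RingHom.algebraMap_toAlgebra, Ideal.ResidueField.map_algebraMap]
    rfl
  exact hP.holds_vectorSpace p.ResidueField _ (h ⟨p, hp⟩)

/-- If `D(A)` is generated by residue fields, so is the `R`-module `A`. -/
lemma IsLocalizing.holds_algebra (hP : IsLocalizing P) (h : ContainsResidueFields P)
    (hA : ∀ Q : ObjectProperty (DerivedCategory (ModuleCat.{0} A)), IsLocalizing Q →
      ContainsResidueFields Q → Holds Q A) : Holds P A := by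
  rw [← holds_inverseImage_iff (R := R) (A := A) hP]
  exact hA _ hP.restrict (hP.containsResidueFields_restrict A h)

end transfer

/-- A criterion for not being weakly visible. -/
lemma not_weaklyVisible {R : Type} [CommRing R] (m : PrimeSpectrum R)
    (h : ∀ F : Finset R, (∀ f ∈ F, f ∈ m.asIdeal) →
      ∃ p : PrimeSpectrum R, p ≠ m ∧ p ≤ m ∧ ∀ f ∈ F, f ∈ p.asIdeal) : ¬ WeaklyVisible m := by
  rintro ⟨Y₁, Y₂, ⟨S₁, hS₁, rfl⟩, ⟨S₂, hS₂, rfl⟩, hY⟩
  have hm : m ∈ ⋃₀ S₁ ∩ (⋃₀ S₂)ᶜ := by
    rw [← hY]; rfl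
  obtain ⟨⟨Z, hZ, hmZ⟩, hm2⟩ := hm
  obtain ⟨hZc, hZk⟩ := hS₁ Z hZ
  obtain ⟨F, hF⟩ := PrimeSpectrum.isCompact_isOpen_iff.1 ⟨hZk, hZc.isOpen_compl⟩
  rw [compl_inj_iff] at hF
  have hFm : ∀ f ∈ F, f ∈ m.asIdeal := by
    rw [← hF] at hmZ
    exact fun f hf => hmZ hf
  obtain ⟨p, hne, hle, hn⟩ := h F hFm
  have hpn : p ∈ ⋃₀ S₁ := by
    refine ⟨Z, hZ, ?_⟩
    rw [← hF]
    exact fun f hf => hn f hf
  have hp2 : p ∈ ⋃₀ S₂ := by
    by_contra h3
    have h4 : p ∈ ⋃₀ S₁ ∩ (⋃₀ S₂)ᶜ := ⟨hpn, h3⟩
    rw [← hY] at h4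
    exact hne h4
  obtain ⟨Z', hZ', hpZ'⟩ := hp2
  exact hm2 ⟨Z', hZ', (((PrimeSpectrum.le_iff_specializes _ _).1 hle).mem_closed
    (hS₂ Z' hZ').1 hpZ')⟩

section glue

variable {k : Type} [Field k] {ι : Type} (A : ι → Type) [∀ i, CommRing (A i)]
  [∀ i, Algebra k (A i)] (ε : ∀ i, A i →ₐ[k] k)

/-- The bouquet of the augmented algebras `ε i : A i → k`: families with a common augmentation
`c`, almost all members of which are equal to `c`. -/
def Bq : Subring (∀ i, A i) where
  carrier := {f | ∃ c : k, (∀ i, ε i (f i) = c) ∧ {i | f i ≠ algebraMap k (A i) c}.Finite}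
  mul_mem' := by
    rintro f g ⟨c, hc, hf⟩ ⟨d, hd, hg⟩
    refine ⟨c * d, fun i => by rw [Pi.mul_apply, map_mul, hc, hd], (hf.union hg).subset ?_⟩
    intro i hi
    by_contra h
    simp only [Set.mem_union, Set.mem_ofPred_eq, not_or, not_not] at h
    exact hi (by rw [Pi.mul_apply, h.1, h.2, map_mul])
  one_mem' := ⟨1, fun i => by simp, by simp⟩
  add_mem' := by
    rintro f g ⟨c, hc, hf⟩ ⟨d, hd, hg⟩
    refine ⟨c + d, fun i => by rw [Pi.add_apply, map_add, hc, hd], (hf.union hg).subset ?_⟩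
    intro i hi
    by_contra h
    simp only [Set.mem_union, Set.mem_ofPred_eq, not_or, not_not] at h
    exact hi (by rw [Pi.add_apply, h.1, h.2, map_add])
  zero_mem' := ⟨0, fun i => by simp, by simp⟩
  neg_mem' := by
    rintro f ⟨c, hc, hf⟩
    refine ⟨-c, fun i => by rw [Pi.neg_apply, map_neg, hc], hf.subset ?_⟩
    intro i hi h
    exact hi (by rw [Pi.neg_apply, h, map_neg])

namespace Bq

variable {A ε}

/-- The `i`-th coordinate. -/
def ev (i : ι) : Bq A ε →+* A i := (Pi.evalRingHom A i).comp (Bq A ε).subtype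

lemma ev_apply (i : ι) (f : Bq A ε) : ev i f = (f : ∀ i, A i) i := rfl

lemma ext {f g : Bq A ε} (h : ∀ i, ev i f = ev i g) : f = g := Subtype.ext (funext h)

lemma const_eq (f : Bq A ε) (i j : ι) : ε i (ev i f) = ε j (ev j f) := by
  obtain ⟨f, c, hc, hf⟩ := f
  exact (hc i).trans (hc j).symm

/-- Change one coordinate. -/
noncomputable def upd (g : ∀ i, A i) (i : ι) (a : A i) : ∀ i, A i :=
  @Function.update ι A (Classical.decEq ι) g i a

omit [∀ i, CommRing (A i)] in
lemma upd_self (g : ∀ i, A i) (i : ι) (a : A i) : upd g i a i = a :=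
  @Function.update_self ι A (Classical.decEq ι) i a g

omit [∀ i, CommRing (A i)] in
lemma upd_ne (g : ∀ i, A i) (i j : ι) (h : j ≠ i) (a : A i) : upd g i a j = g j :=
  @Function.update_of_ne ι A (Classical.decEq ι) j i h a g

/-- The element with `i`-th coordinate `a` and the other coordinates constant. -/
noncomputable def sec (i : ι) (a : A i) : Bq A ε :=
  ⟨upd (fun j => algebraMap k (A j) (ε i a)) i a, ε i a, by
    intro j
    by_cases h : j = i
    · subst h; rw [upd_self]
    · rw [upd_ne _ i j h, AlgHom.commutes]; rfl, (Set.finite_singleton i).subset (by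
    intro j hj
    by_contra h
    exact hj (upd_ne _ i j h _))⟩

lemma ev_sec (i : ι) (a : A i) : ev i (sec i a : Bq A ε) = a :=
  upd_self (fun j => algebraMap k (A j) (ε i a)) i a

lemma ev_sec_ne (i j : ι) (h : j ≠ i) (a : A i) :
    ev j (sec i a : Bq A ε) = algebraMap k (A j) (ε i a) :=
  upd_ne (fun j => algebraMap k (A j) (ε i a)) i j h a

lemma finite_ne (f : Bq A ε) (i₀ : ι) : {i | ev i f ≠ algebraMap k (A i) (ε i₀ (ev i₀ f))}.Finite := by
  obtain ⟨f, c, hc, hf⟩ := f
  have : ε i₀ (ev i₀ (⟨f, c, hc, hf⟩ : Bq A ε)) = c := hc i₀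
  rw [this]
  exact hf

end Bq

section main

variable {A ε} [HasDerivedCategory.{w} (ModuleCat.{0} (Bq A ε))]
  {P : ObjectProperty (DerivedCategory (ModuleCat.{0} (Bq A ε)))}

/-- The augmentation of the bouquet. -/
def Bq.aug (i₀ : ι) : Bq A ε →+* k := (ε i₀ : A i₀ →+* k).comp (Bq.ev i₀)

omit [HasDerivedCategory.{w} (ModuleCat.{0} (Bq A ε))] in
lemma Bq.aug_eq (i₀ i : ι) (f : Bq A ε) : Bq.aug i₀ f = ε i (Bq.ev i f) := Bq.const_eq f i₀ i

omit [HasDerivedCategory.{w} (ModuleCat.{0} (Bq A ε))] in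
lemma Bq.aug_surjective (i₀ : ι) : Function.Surjective (Bq.aug i₀ : Bq A ε →+* k) := by
  intro c
  refine ⟨Bq.sec i₀ (algebraMap k (A i₀) c), ?_⟩
  rw [Bq.aug_eq i₀ i₀, Bq.ev_sec, AlgHom.commutes]
  rfl

/-- The gluing theorem: if every `D(A i)` is generated by its residue fields, then so is `D` of
the bouquet (in the sense that the ring lies in the localizing subcategory). -/
theorem glue (i₀ : ι) (hP : IsLocalizing P) (h : ContainsResidueFields P)
    [∀ i, HasDerivedCategory.{w'} (ModuleCat.{0} (A i))]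
    (hA : ∀ i, ∀ Q : ObjectProperty (DerivedCategory (ModuleCat.{0} (A i))), IsLocalizing Q →
      ContainsResidueFields Q → Holds Q (A i)) : Holds P (Bq A ε) := by
  classical
  let _ : ∀ i, Algebra (Bq A ε) (A i) := fun i => (Bq.ev i).toAlgebra
  let _ : Algebra (Bq A ε) k := (Bq.aug i₀).toAlgebra
  have hA' : ∀ i, Holds P (A i) := fun i => hP.holds_algebra (A i) h (hA i)
  -- the residue field `k`
  let m : Ideal (Bq A ε) := RingHom.ker (Bq.aug i₀ : Bq A ε →+* k)
  have hm : m.IsMaximal := RingHom.ker_isMaximal_of_surjective _ (Bq.aug_surjective i₀)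
  have hk : Holds P k := by
    refine hP.iso ?_ (hP.holds_quotient_of_residueField m (h ⟨m, hm.isPrime⟩))
    exact (Submodule.quotEquivOfEq _ _ (by ext x; rfl)).trans
      ((Algebra.linearMap (Bq A ε) k).quotKerEquivOfSurjective (Bq.aug_surjective i₀))
  -- the maps `A i → k`
  let e : ∀ i, A i →ₗ[Bq A ε] k := fun i =>
    { toFun := ε i
      map_add' := map_add _
      map_smul' := fun r a => by
        rw [Algebra.smul_def, map_mul]
        change ε i (Bq.ev i r) * ε i a = Bq.aug i₀ r * ε i a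
        rw [Bq.aug_eq i₀ i] }
  have he : ∀ i, Function.Surjective (e i) := fun i c => ⟨algebraMap k (A i) c, by
    change ε i (algebraMap k (A i) c) = c
    rw [AlgHom.commutes]; rfl⟩
  have hker : ∀ i, Holds P (LinearMap.ker (e i)) := fun i =>
    hP.first (LinearMap.ker (e i)).subtype (e i) (Submodule.subtype_injective _) (he i)
      (LinearMap.exact_subtype_ker_map _) (hA' i) hk
  -- the inclusions of the augmentation ideals
  let j : ∀ i, LinearMap.ker (e i) →ₗ[Bq A ε] Bq A ε := fun i =>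
    { toFun := fun a => Bq.sec i (a : A i)
      map_add' := fun a b => by
        have ha : ε i a = 0 := a.2
        have hb : ε i b = 0 := b.2
        apply Bq.ext
        intro l
        rw [map_add]
        by_cases hl : l = i
        · subst hl
          rw [Bq.ev_sec, Bq.ev_sec, Bq.ev_sec]; rfl
        · rw [Bq.ev_sec_ne i l hl, Bq.ev_sec_ne i l hl, Bq.ev_sec_ne i l hl, Submodule.coe_add,
            map_add, ha, hb, add_zero, map_zero, add_zero]
      map_smul' := fun r a => by
        have ha : ε i a = 0 := a.2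
        have ha' : ε i (r • a : LinearMap.ker (e i)) = 0 := (r • a).2
        apply Bq.ext
        intro l
        rw [RingHom.id_apply, smul_eq_mul, map_mul]
        by_cases hl : l = i
        · subst hl
          rw [Bq.ev_sec, Bq.ev_sec, Submodule.coe_smul, Algebra.smul_def]; rfl
        · rw [Bq.ev_sec_ne i l hl, Bq.ev_sec_ne i l hl, ha, ha', map_zero, mul_zero] }
  have hj : ∀ i (a : LinearMap.ker (e i)), Bq.ev i (j i a) = (a : A i) := fun i a =>
    Bq.ev_sec i _
  have hj' : ∀ i l (a : LinearMap.ker (e i)), l ≠ i → Bq.ev l (j i a) = 0 := fun i l a hl => by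
    have ha : ε i a = 0 := a.2
    change Bq.ev l (Bq.sec i (a : A i)) = 0
    rw [Bq.ev_sec_ne i l hl, ha, map_zero]
  let J : (⨁ i, LinearMap.ker (e i)) →ₗ[Bq A ε] Bq A ε := toModule (Bq A ε) ι _ j
  have hJ : ∀ (x : ⨁ i, LinearMap.ker (e i)) (l : ι), Bq.ev l (J x) = (x l : A l) := by
    intro x l
    induction x using DirectSum.induction_on with
    | zero => simp
    | of i x =>
      change Bq.ev l (J (lof (Bq A ε) ι (fun i => LinearMap.ker (e i)) i x)) =
        ((lof (Bq A ε) ι (fun i => LinearMap.ker (e i)) i x) l : A l)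
      rw [toModule_lof]
      by_cases hl : l = i
      · subst hl
        rw [hj, DirectSum.lof_apply]
      · rw [hj' i l x hl, DirectSum.lof_eq_of, DirectSum.of_eq_of_ne _ _ _ hl]
        rfl
    | add x y hx hy => rw [map_add, map_add, hx, hy, DirectSum.add_apply, Submodule.coe_add]
  have hinj : Function.Injective J := by
    rw [injective_iff_map_eq_zero]
    intro x hx
    ext l
    have h1 := hJ x l
    rw [hx, map_zero] at h1
    exact h1.symm
  refine hP.second J (Algebra.linearMap (Bq A ε) k) hinj (Bq.aug_surjective i₀) ?_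
    (hP.sum _ hker) hk
  intro f
  constructor
  · intro hf
    have h0 : ∀ i, ε i (Bq.ev i f) = 0 := fun i => by
      rw [← Bq.aug_eq i₀ i]; exact hf
    have hfin : {i | Bq.ev i f ≠ 0}.Finite := by
      have := Bq.finite_ne f i₀
      rw [h0 i₀] at this
      simpa only [map_zero] using this
    refine ⟨∑ i ∈ hfin.toFinset, lof (Bq A ε) ι (fun i => LinearMap.ker (e i)) i
      ⟨Bq.ev i f, h0 i⟩, ?_⟩
    apply Bq.ext
    intro l
    rw [map_sum, map_sum]
    have h1 : ∀ i, Bq.ev l (J (lof (Bq A ε) ι (fun i => LinearMap.ker (e i)) i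
        ⟨Bq.ev i f, h0 i⟩)) = if l = i then Bq.ev l f else 0 := by
      intro i
      rw [toModule_lof]
      split_ifs with hl
      · subst hl; rw [hj]
      · exact hj' i l _ hl
    rw [Finset.sum_congr rfl (fun i _ => h1 i), Finset.sum_ite_eq]
    split_ifs with hl
    · rfl
    · by_contra hne
      exact hl (hfin.mem_toFinset.2 (Ne.symm hne))
  · rintro ⟨x, rfl⟩
    change Bq.aug i₀ (J x) = 0
    rw [Bq.aug_eq i₀ i₀, hJ]
    exact (x i₀).2

omit [HasDerivedCategory.{w} (ModuleCat.{0} (Bq A ε))] in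
/-- If infinitely many of the augmentation ideals are not minimal primes, the closed point of the
bouquet is not weakly visible. -/
theorem not_weaklyNoetherian_bq
    (hq : {i | ∃ q : Ideal (A i), q.IsPrime ∧ q < RingHom.ker (ε i)}.Infinite) :
    ¬ WeaklyNoetherian (PrimeSpectrum (Bq A ε)) := by
  classical
  intro H
  obtain ⟨i₀, -⟩ := hq.nonempty
  let m : Ideal (Bq A ε) := RingHom.ker (Bq.aug i₀ : Bq A ε →+* k)
  have hm : m.IsMaximal := RingHom.ker_isMaximal_of_surjective _ (Bq.aug_surjective i₀)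
  refine not_weaklyVisible ⟨m, hm.isPrime⟩ ?_ (H _)
  intro F hF
  have hfin : (⋃ f ∈ F, {i | Bq.ev i f ≠ 0}).Finite := by
    refine F.finite_toSet.biUnion fun f hf => ?_
    have h1 := Bq.finite_ne f i₀
    have h0 : ε i₀ (Bq.ev i₀ f) = 0 := hF f hf
    rw [h0] at h1
    simpa only [map_zero] using h1
  obtain ⟨i, ⟨q, hqp, hqlt⟩, hi⟩ := (hq.sdiff hfin).nonempty
  refine ⟨⟨q.comap (Bq.ev i), Ideal.comap_isPrime _ _⟩, ?_, ?_, ?_⟩
  · intro heq
    have h1 : q.comap (Bq.ev i) = m := congrArg PrimeSpectrum.asIdeal heq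
    obtain ⟨a, ha, haq⟩ := SetLike.exists_of_lt hqlt
    apply haq
    have h2 : Bq.sec i a ∈ m := by
      change Bq.aug i₀ (Bq.sec i a) = 0
      rw [Bq.aug_eq i₀ i, Bq.ev_sec]
      exact ha
    rw [← h1, Ideal.mem_comap, Bq.ev_sec] at h2
    exact h2
  · intro f hf
    change Bq.aug i₀ f = 0
    rw [Bq.aug_eq i₀ i]
    exact hqlt.le hf
  · intro f hf
    rw [Ideal.mem_comap]
    have : Bq.ev i f = 0 := by
      by_contra h
      exact hi (Set.mem_biUnion hf h)
    rw [this]
    exact q.zero_mem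

end main

end glue

/-- `D(k⟦X⟧)` is generated by its residue fields. -/
theorem powerSeries_holds {k : Type} [Field k]
    [HasDerivedCategory.{w} (ModuleCat.{0} (PowerSeries k))]
    {P : ObjectProperty (DerivedCategory (ModuleCat.{0} (PowerSeries k)))} (hP : IsLocalizing P)
    (h : ContainsResidueFields P) : Holds P (PowerSeries k) := by
  let m : Ideal (PowerSeries k) := Ideal.span {PowerSeries.X}
  have hm : m.IsMaximal := by
    have : m = RingHom.ker (PowerSeries.constantCoeff (R := k)) := by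
      ext f
      rw [Ideal.mem_span_singleton, RingHom.mem_ker, PowerSeries.X_dvd_iff]
    rw [this]
    exact RingHom.ker_isMaximal_of_surjective _ (fun c => ⟨PowerSeries.C c, by simp⟩)
  have h1 := hP.holds_quotient (⊥ : Ideal (PowerSeries k)) m PowerSeries.X
    (by rw [Ideal.mem_bot]; exact PowerSeries.X_ne_zero) (by rw [bot_sup_eq]) (fun r hr => by
      rw [Ideal.mem_bot] at hr
      obtain ⟨n, u, hu⟩ := IsDiscreteValuationRing.eq_unit_mul_pow_irreducible hr
        (PowerSeries.X_prime (R := k)).irreducible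
      refine ⟨n, (u⁻¹ : (PowerSeries k)ˣ), ?_⟩
      rw [Ideal.mem_bot, hu, mul_comm, ← mul_assoc, Units.inv_mul, one_mul, sub_self])
    (h ⟨m, hm.isPrime⟩) (h ⟨⊥, Ideal.isPrime_bot⟩)
  exact hP.iso (Submodule.quotEquivOfEqBot ⊥ rfl) h1

end Pool.Agent.Q37.WN
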