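import Pool.Agent.Q37.WN.Mod

open CategoryTheory Limits DirectSum

namespace Pool.Agent.Q37.WN

universe w

variable {R : Type} [CommRing R] [HasDerivedCategory.{w} (ModuleCat.{0} R)]
  {P : ObjectProperty (DerivedCategory (ModuleCat.{0} R))}

lemma IsLocalizing.holds_of_subsingleton (hP : IsLocalizing P) (M : Type) [AddCommGroup M]
    [Module R M] [Subsingleton M] : Holds P M := by
  have h := hP.sum (J := Empty) (fun _ => R) (fun j => j.elim)
  refine hP.iso ?_ h
  exact LinearEquiv.ofBijective (0 : (⨁ _ : Empty, R) →ₗ[R] M)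
    ⟨fun x y _ => DFinsupp.ext fun j => j.elim, fun y => ⟨0, Subsingleton.elim _ _⟩⟩

/-- The residue field of a maximal ideal. -/
lemma IsLocalizing.holds_quotient_of_residueField (hP : IsLocalizing P) (m : Ideal R)
    [hm : m.IsMaximal] (h : Holds P m.ResidueField) : Holds P (R ⧸ m) := by
  refine hP.iso (LinearEquiv.symm (LinearEquiv.ofBijective
    (IsScalarTower.toAlgHom R (R ⧸ m) m.ResidueField).toLinearMap ?_)) h
  exact m.bijective_algebraMap_quotient_residueField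

section step2

omit [HasDerivedCategory.{w} (ModuleCat.{0} R)]

variable (p m : Ideal R) [p.IsPrime] (t : R)

/-- `κ(p) / image of R`. -/
abbrev Qt := p.ResidueField ⧸ LinearMap.range (Algebra.linearMap R p.ResidueField)

/-- The `t`-power torsion filtration. -/
noncomputable def fil (n : ℕ) : Submodule R (Qt p) := LinearMap.ker (LinearMap.lsmul R (Qt p) (t ^ n))

lemma mem_fil (n : ℕ) (x : Qt p) : x ∈ fil p t n ↔ t ^ n • x = 0 := by
  rw [fil, LinearMap.mem_ker, LinearMap.lsmul_apply]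

lemma fil_mono (n : ℕ) : fil p t n ≤ fil p t (n + 1) := by
  intro x hx
  rw [mem_fil] at hx ⊢
  rw [pow_succ', mul_smul, hx, smul_zero]

lemma tau_ne (ht : t ∉ p) : algebraMap R p.ResidueField t ≠ 0 := by
  rw [Ne, Ideal.algebraMap_residueField_eq_zero]
  exact ht

lemma fil_exhaust (hd : ∀ r, r ∉ p → ∃ (n : ℕ) (s : R), t ^ n - r * s ∈ p) (x : Qt p) :
    ∃ n, x ∈ fil p t n := by
  obtain ⟨x, rfl⟩ := Submodule.mkQ_surjective _ x
  obtain ⟨a, b, hb, rfl⟩ := IsFractionRing.div_surjective (A := R ⧸ p) x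
  obtain ⟨a, rfl⟩ := Ideal.Quotient.mk_surjective a
  obtain ⟨b, rfl⟩ := Ideal.Quotient.mk_surjective b
  have hb' : b ∉ p := by
    intro h
    rw [← Ideal.Quotient.eq_zero_iff_mem] at h
    rw [h] at hb
    exact zero_notMem_nonZeroDivisors hb
  obtain ⟨n, s, hs⟩ := hd b hb'
  refine ⟨n, ?_⟩
  rw [mem_fil, ← map_smul, Submodule.mkQ_apply, Submodule.Quotient.mk_eq_zero]
  refine ⟨s * a, ?_⟩
  have h1 : algebraMap R p.ResidueField (t ^ n) = algebraMap R p.ResidueField (b * s) := by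
    rw [← sub_eq_zero, ← map_sub, Ideal.algebraMap_residueField_eq_zero]
    exact hs
  have hb0 : algebraMap R p.ResidueField b ≠ 0 := by
    rw [Ne, Ideal.algebraMap_residueField_eq_zero]
    exact hb'
  have h2 : ∀ r : R, algebraMap (R ⧸ p) p.ResidueField (Ideal.Quotient.mk p r) =
      algebraMap R p.ResidueField r := fun r => rfl
  rw [h2, h2, Algebra.linearMap_apply, Algebra.smul_def, h1, map_mul, map_mul]
  field_simp

/-- The map `r ↦ [r / t]`. -/
noncomputable def phi : R →ₗ[R] Qt p :=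
  LinearMap.toSpanSingleton R (Qt p)
    (Submodule.mkQ _ ((algebraMap R p.ResidueField t)⁻¹))

lemma phi_apply (r : R) : phi p t r = Submodule.mkQ (LinearMap.range
    (Algebra.linearMap R p.ResidueField)) (r • (algebraMap R p.ResidueField t)⁻¹) := rfl

lemma ker_phi (ht : t ∉ p) : LinearMap.ker (phi p t) = p ⊔ Ideal.span {t} := by
  have h0 := tau_ne p t ht
  ext r
  rw [LinearMap.mem_ker, phi_apply, Submodule.mkQ_apply, Submodule.Quotient.mk_eq_zero,
    Submodule.mem_sup]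
  constructor
  · rintro ⟨s, hs⟩
    rw [Algebra.linearMap_apply, Algebra.smul_def, eq_mul_inv_iff_mul_eq₀ h0, ← map_mul] at hs
    refine ⟨r - s * t, ?_, s * t, Ideal.mul_mem_left _ _ (Ideal.mem_span_singleton_self t),
      by ring⟩
    rw [← Ideal.algebraMap_residueField_eq_zero, map_sub, hs, sub_self]
  · rintro ⟨y, hy, z, hz, rfl⟩
    obtain ⟨s, rfl⟩ := Ideal.mem_span_singleton.1 hz
    refine ⟨s, ?_⟩
    rw [← Ideal.algebraMap_residueField_eq_zero] at hy
    rw [Algebra.linearMap_apply, Algebra.smul_def, map_add, hy, zero_add, map_mul,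
      eq_mul_inv_iff_mul_eq₀ h0, mul_comm]

lemma range_phi (ht : t ∉ p) : LinearMap.range (phi p t) = fil p t 1 := by
  have h0 := tau_ne p t ht
  ext x
  constructor
  · rintro ⟨r, rfl⟩
    rw [mem_fil, pow_one, phi_apply, ← map_smul, Submodule.mkQ_apply,
      Submodule.Quotient.mk_eq_zero]
    refine ⟨r, ?_⟩
    rw [Algebra.linearMap_apply, Algebra.smul_def, Algebra.smul_def]
    field_simp
  · intro hx
    obtain ⟨x, rfl⟩ := Submodule.mkQ_surjective _ x
    rw [mem_fil, pow_one, ← map_smul, Submodule.mkQ_apply, Submodule.Quotient.mk_eq_zero] at hx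
    obtain ⟨r, hr⟩ := hx
    rw [Algebra.linearMap_apply, Algebra.smul_def] at hr
    refine ⟨r, ?_⟩
    rw [phi_apply, Algebra.smul_def, hr]
    congr 1
    field_simp

/-- Multiplication by `t ^ n`. -/
noncomputable def step (n : ℕ) : fil p t (n + 1) →ₗ[R] fil p t 1 :=
  ((LinearMap.lsmul R (Qt p) (t ^ n)).comp (fil p t (n + 1)).subtype).codRestrict _ (by
    rintro ⟨x, hx⟩
    rw [mem_fil] at hx ⊢
    change t ^ 1 • t ^ n • x = 0
    rw [← mul_smul, pow_one, ← pow_succ', hx])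

lemma step_apply (n : ℕ) (x : fil p t (n + 1)) : (step p t n x : Qt p) = t ^ n • (x : Qt p) := rfl

lemma step_surjective (ht : t ∉ p) (n : ℕ) : Function.Surjective (step p t n) := by
  have h0 := tau_ne p t ht
  rintro ⟨x, hx⟩
  obtain ⟨x, rfl⟩ := Submodule.mkQ_surjective _ x
  have h1 : t ^ n • Submodule.mkQ (LinearMap.range (Algebra.linearMap R p.ResidueField))
      (((algebraMap R p.ResidueField t) ^ n)⁻¹ * x) = Submodule.mkQ _ x := by
    rw [← map_smul, Algebra.smul_def, map_pow, ← mul_assoc, mul_inv_cancel₀ (pow_ne_zero _ h0),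
      one_mul]
  refine ⟨⟨Submodule.mkQ _ (((algebraMap R p.ResidueField t) ^ n)⁻¹ * x), ?_⟩, ?_⟩
  · rw [mem_fil] at hx ⊢
    rw [pow_succ', mul_smul, h1]
    rwa [pow_one] at hx
  · exact Subtype.ext h1

lemma step_exact (n : ℕ) :
    Function.Exact (Submodule.inclusion (fil_mono p t n)) (step p t n) := by
  rintro ⟨x, hx⟩
  constructor
  · intro h
    have h1 : t ^ n • x = 0 := congrArg Subtype.val h
    exact ⟨⟨x, (mem_fil _ _ _ _).2 h1⟩, rfl⟩
  · rintro ⟨⟨y, hy⟩, h⟩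
    have h1 : y = x := congrArg Subtype.val h
    subst h1
    apply Subtype.ext
    exact (mem_fil _ _ _ _).1 hy

end step2

/-- `R / p` lies in the localizing subcategory generated by `κ(p)` and `κ(m)`. -/
lemma IsLocalizing.holds_quotient (hP : IsLocalizing P) (p m : Ideal R) [p.IsPrime]
    [m.IsMaximal] (t : R) (ht : t ∉ p) (hm : p ⊔ Ideal.span {t} = m)
    (hd : ∀ r, r ∉ p → ∃ (n : ℕ) (s : R), t ^ n - r * s ∈ p)
    (h1 : Holds P m.ResidueField) (h2 : Holds P p.ResidueField) : Holds P (R ⧸ p) := by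
  have hk : Holds P (R ⧸ m) := hP.holds_quotient_of_residueField m h1
  have hf1 : Holds P (fil p t 1) := by
    refine hP.iso ?_ hk
    exact (Submodule.quotEquivOfEq _ _ (by rw [ker_phi p t ht, hm])).trans
      ((phi p t).quotKerEquivRange.trans (LinearEquiv.ofEq _ _ (range_phi p t ht)))
  have hf : ∀ n, Holds P (fil p t n) := by
    intro n
    induction n with
    | zero =>
      have : Subsingleton (fil p t 0) := by
        refine ⟨fun x y => Subtype.ext ?_⟩
        have hx := (mem_fil _ _ _ _).1 x.2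
        have hy := (mem_fil _ _ _ _).1 y.2
        rw [pow_zero, one_smul] at hx hy
        rw [hx, hy]
      exact hP.holds_of_subsingleton _
    | succ n ih =>
      exact hP.second _ _ (Submodule.inclusion_injective _) (step_surjective p t ht n)
        (step_exact p t n) ih hf1
  have hQ : Holds P (Qt p) := hP.union (fil p t) (fil_mono p t) (fil_exhaust p t hd) hf
  refine hP.first (IsScalarTower.toAlgHom R (R ⧸ p) p.ResidueField).toLinearMap
    (Submodule.mkQ (LinearMap.range (Algebra.linearMap R p.ResidueField)))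
    (p.injective_algebraMap_quotient_residueField) (Submodule.mkQ_surjective _) ?_ h2 hQ
  intro x
  rw [Submodule.mkQ_apply, Submodule.Quotient.mk_eq_zero]
  constructor
  · rintro ⟨r, hr⟩
    exact ⟨Ideal.Quotient.mk p r, hr⟩
  · rintro ⟨r, hr⟩
    obtain ⟨r, rfl⟩ := Ideal.Quotient.mk_surjective r
    exact ⟨r, hr⟩

/-- A bouquet of infinitely many one-dimensional branches `R / p i` meeting in `m`. -/
structure Bouquet (R : Type) [CommRing R] where
  m : Ideal R
  p : ℕ → Ideal R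
  t : ℕ → R
  hm : m.IsMaximal
  hp : ∀ i, (p i).IsPrime
  le : ∀ i, p i ≤ m
  ann : ∀ i r, r ∈ p i ↔ t i * r = 0
  orth : ∀ i j, i ≠ j → t i * t j = 0
  span : Ideal.span (Set.range t) = m
  ne : ∀ i, t i ∉ p i
  dvr : ∀ i r, r ∉ p i → ∃ (n : ℕ) (s : R), t i ^ n - r * s ∈ p i

namespace Bouquet

variable (B : Bouquet R)

omit [HasDerivedCategory.{w} (ModuleCat.{0} R)]

lemma sup_eq (i : ℕ) : B.p i ⊔ Ideal.span {B.t i} = B.m := by
  apply le_antisymm
  · refine sup_le (B.le i) ?_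
    rw [Ideal.span_singleton_le_iff_mem, ← B.span]
    exact Ideal.subset_span ⟨i, rfl⟩
  · rw [← B.span, Ideal.span_le]
    rintro _ ⟨j, rfl⟩
    by_cases h : i = j
    · subst h
      exact Ideal.mem_sup_right (Ideal.mem_span_singleton_self _)
    · exact Ideal.mem_sup_left ((B.ann i _).2 (B.orth i j h))

/-- Multiplication by `t i` as a map `R / p i → R`. -/
noncomputable def mulT (i : ℕ) : (R ⧸ B.p i) →ₗ[R] R :=
  Submodule.liftQ (B.p i) (LinearMap.lsmul R R (B.t i)) (fun r hr => by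
    rw [LinearMap.mem_ker, LinearMap.lsmul_apply, smul_eq_mul]
    exact (B.ann i r).1 hr)

lemma mulT_mk (i : ℕ) (r : R) : B.mulT i (Ideal.Quotient.mk (B.p i) r) = B.t i * r := rfl

noncomputable def tot : (⨁ i, R ⧸ B.p i) →ₗ[R] R := toModule R ℕ _ B.mulT

lemma t_mul_tot (j : ℕ) (x : ⨁ i, R ⧸ B.p i) : B.t j * B.tot x = B.t j * B.mulT j (x j) := by
  induction x using DirectSum.induction_on with
  | zero => simp
  | of i x =>
    change B.t j * B.tot (lof R ℕ (fun i => R ⧸ B.p i) i x) =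
      B.t j * B.mulT j ((lof R ℕ (fun i => R ⧸ B.p i) i x) j)
    rw [tot, toModule_lof]
    obtain ⟨r, rfl⟩ := Ideal.Quotient.mk_surjective x
    by_cases h : i = j
    · subst h
      rw [DirectSum.lof_apply]
    · rw [DirectSum.lof_eq_of, DirectSum.of_eq_of_ne _ _ _ (Ne.symm h), map_zero, mul_zero,
        mulT_mk, ← mul_assoc, B.orth j i (Ne.symm h), zero_mul]
  | add x y hx hy =>
    rw [map_add, DirectSum.add_apply, map_add, mul_add, mul_add, hx, hy]

lemma tot_injective : Function.Injective B.tot := by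
  rw [injective_iff_map_eq_zero]
  intro x hx
  ext j
  have h := B.t_mul_tot j x
  rw [hx, mul_zero] at h
  obtain ⟨r, hr⟩ := Ideal.Quotient.mk_surjective (x j)
  rw [← hr, mulT_mk] at h
  have h1 : B.t j * r ∈ B.p j := (B.ann j _).2 h.symm
  have h2 : r ∈ B.p j := ((B.hp j).mem_or_mem h1).resolve_left (B.ne j)
  rw [← hr, Ideal.Quotient.eq_zero_iff_mem.2 h2]
  rfl

lemma tot_mem (x : ⨁ i, R ⧸ B.p i) : B.tot x ∈ B.m := by
  induction x using DirectSum.induction_on with
  | zero => simp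
  | of i x =>
    change B.tot (lof R ℕ (fun i => R ⧸ B.p i) i x) ∈ B.m
    rw [tot, toModule_lof]
    obtain ⟨r, rfl⟩ := Ideal.Quotient.mk_surjective x
    rw [mulT_mk, ← B.span]
    exact Ideal.mul_mem_right _ _ (Ideal.subset_span ⟨i, rfl⟩)
  | add x y hx hy =>
    rw [map_add]
    exact B.m.add_mem hx hy

lemma range_tot : LinearMap.range B.tot = B.m := by
  apply le_antisymm
  · rintro _ ⟨x, rfl⟩
    exact B.tot_mem x
  · rw [← B.span]
    refine Submodule.span_le.2 ?_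
    rintro _ ⟨i, rfl⟩
    refine ⟨lof R ℕ (fun i => R ⧸ B.p i) i (Ideal.Quotient.mk _ 1), ?_⟩
    rw [tot, toModule_lof, mulT_mk, mul_one]

/-- The ring of a bouquet lies in the localizing subcategory generated by the residue fields. -/
theorem holds (B : Bouquet R) [HasDerivedCategory.{w} (ModuleCat.{0} R)]
    {P : ObjectProperty (DerivedCategory (ModuleCat.{0} R))} (hP : IsLocalizing P)
    (h : ∀ q : PrimeSpectrum R, Holds P q.asIdeal.ResidueField) : Holds P R := by
  have := B.hm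
  have := B.hp
  have h1 : ∀ i, Holds P (R ⧸ B.p i) := fun i =>
    hP.holds_quotient (B.p i) B.m (B.t i) (B.ne i) (B.sup_eq i) (B.dvr i)
      (h ⟨B.m, B.hm.isPrime⟩) (h ⟨B.p i, B.hp i⟩)
  have h2 : Holds P (R ⧸ B.m) := hP.holds_quotient_of_residueField B.m (h ⟨B.m, B.hm.isPrime⟩)
  refine hP.second B.tot (Submodule.mkQ B.m) B.tot_injective (Submodule.mkQ_surjective _) ?_
    (hP.sum _ h1) h2
  intro x
  rw [Submodule.mkQ_apply, Submodule.Quotient.mk_eq_zero, ← B.range_tot]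
  rfl

lemma eventually_mem (f : R) (hf : f ∈ B.m) : ∃ N, ∀ n, N ≤ n → f ∈ B.p n := by
  rw [← B.range_tot] at hf
  obtain ⟨x, rfl⟩ := hf
  induction x using DirectSum.induction_on with
  | zero => exact ⟨0, fun n _ => by simp⟩
  | of i x =>
    refine ⟨i + 1, fun n hn => ?_⟩
    rw [B.ann, ]
    rw [t_mul_tot, DirectSum.of_eq_of_ne _ _ _ (by omega), map_zero, mul_zero]
  | add x y hx hy =>
    obtain ⟨a, ha⟩ := hx
    obtain ⟨b, hb⟩ := hy
    refine ⟨max a b, fun n hn => ?_⟩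
    rw [map_add]
    exact (B.p n).add_mem (ha n (le_of_max_le_left hn)) (hb n (le_of_max_le_right hn))

lemma eventually_mem_finset (F : Finset R) (hF : ∀ f ∈ F, f ∈ B.m) :
    ∃ N, ∀ f ∈ F, f ∈ B.p N := by
  classical
  suffices h : ∃ N, ∀ n, N ≤ n → ∀ f ∈ F, f ∈ B.p n by
    obtain ⟨N, hN⟩ := h
    exact ⟨N, hN N le_rfl⟩
  induction F using Finset.induction_on with
  | empty => exact ⟨0, by simp⟩
  | insert a F ha ih =>
    obtain ⟨N, hN⟩ := ih (fun f hf => hF f (Finset.mem_insert_of_mem hf))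
    obtain ⟨N', hN'⟩ := B.eventually_mem a (hF a (Finset.mem_insert_self _ _))
    refine ⟨max N N', fun n hn f hf => ?_⟩
    rcases Finset.mem_insert.1 hf with rfl | hf
    · exact hN' n (le_of_max_le_right hn)
    · exact hN n (le_of_max_le_left hn) f hf

end Bouquet

/-- Thomason subsets. -/
def IsThomason {X : Type} [TopologicalSpace X] (Y : Set X) : Prop :=
  ∃ S : Set (Set X), (∀ Z ∈ S, IsClosed Z ∧ IsCompact Zᶜ) ∧ Y = ⋃₀ S

/-- Weakly visible points. -/
def WeaklyVisible {X : Type} [TopologicalSpace X] (x : X) : Prop :=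
  ∃ Y₁ Y₂ : Set X, IsThomason Y₁ ∧ IsThomason Y₂ ∧ {x} = Y₁ ∩ Y₂ᶜ

/-- Weakly noetherian spaces. -/
def WeaklyNoetherian (X : Type) [TopologicalSpace X] : Prop :=
  ∀ x : X, WeaklyVisible x

omit [HasDerivedCategory.{w} (ModuleCat.{0} R)] in
theorem Bouquet.not_weaklyNoetherian (B : Bouquet R) : ¬ WeaklyNoetherian (PrimeSpectrum R) := by
  intro H
  obtain ⟨Y₁, Y₂, ⟨S₁, hS₁, rfl⟩, ⟨S₂, hS₂, rfl⟩, h⟩ := H ⟨B.m, B.hm.isPrime⟩
  have hm : (⟨B.m, B.hm.isPrime⟩ : PrimeSpectrum R) ∈ ⋃₀ S₁ ∩ (⋃₀ S₂)ᶜ := by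
    rw [← h]; rfl
  obtain ⟨⟨Z, hZ, hmZ⟩, hm2⟩ := hm
  obtain ⟨hZc, hZk⟩ := hS₁ Z hZ
  obtain ⟨F, hF⟩ := PrimeSpectrum.isCompact_isOpen_iff.1 ⟨hZk, hZc.isOpen_compl⟩
  rw [compl_inj_iff] at hF
  have hFm : ∀ f ∈ F, f ∈ B.m := by
    rw [← hF] at hmZ
    exact fun f hf => hmZ hf
  obtain ⟨n, hn⟩ := B.eventually_mem_finset F hFm
  have hpn : (⟨B.p n, B.hp n⟩ : PrimeSpectrum R) ∈ ⋃₀ S₁ := by
    refine ⟨Z, hZ, ?_⟩
    rw [← hF]
    exact fun f hf => hn f hf
  have hne : (⟨B.p n, B.hp n⟩ : PrimeSpectrum R) ≠ ⟨B.m, B.hm.isPrime⟩ := by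
    intro h
    have h1 : B.p n = B.m := congrArg PrimeSpectrum.asIdeal h
    apply B.ne n
    rw [h1, ← B.span]
    exact Ideal.subset_span ⟨n, rfl⟩
  have hp2 : (⟨B.p n, B.hp n⟩ : PrimeSpectrum R) ∈ ⋃₀ S₂ := by
    by_contra h3
    have h4 : (⟨B.p n, B.hp n⟩ : PrimeSpectrum R) ∈ ⋃₀ S₁ ∩ (⋃₀ S₂)ᶜ := ⟨hpn, h3⟩
    rw [← h] at h4
    exact hne h4
  obtain ⟨Z', hZ', hpZ'⟩ := hp2
  apply hm2
  refine ⟨Z', hZ', ?_⟩
  exact (((PrimeSpectrum.le_iff_specializes _ _).1 (B.le n :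
    (⟨B.p n, B.hp n⟩ : PrimeSpectrum R) ≤ ⟨B.m, B.hm.isPrime⟩)).mem_closed (hS₂ Z' hZ').1 hpZ')

end Pool.Agent.Q37.WN
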