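import Pool.Agent.Q37.WN.Cop

open CategoryTheory Limits DirectSum

namespace Pool.Agent.Q37.WN

universe w u

variable {R : Type u} [CommRing R] [HasDerivedCategory.{w} (ModuleCat.{u} R)]

/-- Localizing subcategories of `D(R)`: full triangulated subcategories closed under all (small)
coproducts. -/
structure IsLocalizing (P : ObjectProperty (DerivedCategory (ModuleCat.{u} R))) : Prop where
  triangulated : P.IsTriangulated
  coproducts : ∀ J : Type u, P.IsClosedUnderColimitsOfShape (Discrete J)

/-- `P` holds for the module `M` placed in degree zero. -/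
def Holds (P : ObjectProperty (DerivedCategory (ModuleCat.{u} R))) (M : Type u) [AddCommGroup M]
    [Module R M] : Prop :=
  P ((DerivedCategory.singleFunctor (ModuleCat.{u} R) 0).obj (ModuleCat.of R M))

namespace IsLocalizing

variable {P : ObjectProperty (DerivedCategory (ModuleCat.{u} R))} (hP : IsLocalizing P)
include hP

lemma closedIso : P.IsClosedUnderIsomorphisms where
  of_iso {X Y} e hX := by
    have := hP.coproducts PUnit
    have hc : IsColimit (Cofan.mk Y (fun _ : PUnit.{u + 1} => e.hom)) :=
      Cofan.IsColimit.mk _ (fun s => e.inv ≫ s.inj ⟨⟩)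
        (fun s j => by simp)
        (fun s m hm => by
          have := hm ⟨⟩
          simp at this
          rw [← this]; simp)
    exact P.prop_of_isColimit hc (fun _ => hX)

variable {A B C : Type u} [AddCommGroup A] [Module R A] [AddCommGroup B] [Module R B]
  [AddCommGroup C] [Module R C]

lemma iso (e : A ≃ₗ[R] B) (h : Holds P A) : Holds P B := by
  have := hP.closedIso
  exact P.prop_of_iso ((DerivedCategory.singleFunctor (ModuleCat.{u} R) 0).mapIso e.toModuleIso) h

omit hP [HasDerivedCategory (ModuleCat R)] in
lemma ses (f : A →ₗ[R] B) (g : B →ₗ[R] C) (hf : Function.Injective f)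
    (hg : Function.Surjective g) (hfg : Function.Exact f g) :
    (ShortComplex.mk (ModuleCat.ofHom f) (ModuleCat.ofHom g)
      (by ext x; exact hfg.apply_apply_eq_zero x)).ShortExact where
  exact := by
    rw [ShortComplex.moduleCat_exact_iff]
    intro x hx
    exact (hfg x).1 hx
  mono_f := (ModuleCat.mono_iff_injective _).2 hf
  epi_g := (ModuleCat.epi_iff_surjective _).2 hg

lemma third (f : A →ₗ[R] B) (g : B →ₗ[R] C) (hf : Function.Injective f)
    (hg : Function.Surjective g) (hfg : Function.Exact f g) (h1 : Holds P A) (h2 : Holds P B) :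
    Holds P C := by
  have := hP.triangulated
  have := hP.closedIso
  exact P.ext_of_isTriangulatedClosed₃ _ (ses f g hf hg hfg).singleTriangle_distinguished h1 h2

lemma second (f : A →ₗ[R] B) (g : B →ₗ[R] C) (hf : Function.Injective f)
    (hg : Function.Surjective g) (hfg : Function.Exact f g) (h1 : Holds P A) (h3 : Holds P C) :
    Holds P B := by
  have := hP.triangulated
  have := hP.closedIso
  exact P.ext_of_isTriangulatedClosed₂ _ (ses f g hf hg hfg).singleTriangle_distinguished h1 h3

lemma first (f : A →ₗ[R] B) (g : B →ₗ[R] C) (hf : Function.Injective f)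
    (hg : Function.Surjective g) (hfg : Function.Exact f g) (h2 : Holds P B) (h3 : Holds P C) :
    Holds P A := by
  have := hP.triangulated
  have := hP.closedIso
  exact P.ext_of_isTriangulatedClosed₁ _ (ses f g hf hg hfg).singleTriangle_distinguished h2 h3

lemma sum {J : Type u} (M : J → Type u) [∀ j, AddCommGroup (M j)] [∀ j, Module R (M j)]
    (h : ∀ j, Holds P (M j)) : Holds P (⨁ j, M j) := by
  classical
  have := hP.coproducts J
  have := hP.closedIso
  exact prop_single_of_isColimit P (fun j => ModuleCat.of R (M j)) _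
    (ModuleCat.coproductCoconeIsColimit _) h

end IsLocalizing

section union

variable {R : Type} [CommRing R] {M : Type} [AddCommGroup M] [Module R M]
  (N : ℕ → Submodule R M) (hN : ∀ n, N n ≤ N (n + 1))

/-- The map sending the `k`-th summand to the `(k+1)`-st one. -/
noncomputable def shift : (⨁ k, N k) →ₗ[R] (⨁ k, N k) :=
  toModule R ℕ _ (fun k => (lof R ℕ (fun k => N k) (k + 1)) ∘ₗ Submodule.inclusion (hN k))

/-- `1 - shift`. -/
noncomputable def del : (⨁ k, N k) →ₗ[R] (⨁ k, N k) := LinearMap.id - shift N hN

lemma del_apply (x : ⨁ k, N k) : del N hN x = x - shift N hN x := rfl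

/-- The sum map. -/
noncomputable def total : (⨁ k, N k) →ₗ[R] M :=
  toModule R ℕ _ (fun k => (N k).subtype)

lemma shift_zero (x : ⨁ k, N k) : (shift N hN x) 0 = 0 := by
  induction x using DirectSum.induction_on with
  | zero => simp
  | of i x =>
    change (shift N hN (lof R ℕ (fun k => N k) i x)) 0 = 0
    rw [shift, toModule_lof, LinearMap.comp_apply]
    exact DirectSum.of_eq_of_ne _ _ _ (by omega)
  | add x y hx hy => rw [map_add, DirectSum.add_apply, hx, hy, add_zero]

lemma shift_succ (x : ⨁ k, N k) (n : ℕ) :
    ((shift N hN x) (n + 1) : M) = (x n : M) := by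
  induction x using DirectSum.induction_on with
  | zero => simp
  | of i x =>
    change ((shift N hN (lof R ℕ (fun k => N k) i x)) (n + 1) : M) =
      ((lof R ℕ (fun k => N k) i x) n : M)
    rw [shift, toModule_lof, LinearMap.comp_apply]
    by_cases h : i = n
    · subst h
      rw [DirectSum.lof_apply, DirectSum.lof_apply]
      rfl
    · rw [DirectSum.lof_eq_of, DirectSum.lof_eq_of, DirectSum.of_eq_of_ne _ _ _ (by omega),
        DirectSum.of_eq_of_ne _ _ _ (by omega)]
      rfl
  | add x y hx hy =>
    rw [map_add, DirectSum.add_apply, DirectSum.add_apply, Submodule.coe_add, Submodule.coe_add,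
      hx, hy]

lemma sub_shift_injective : Function.Injective (del N hN) := by
  rw [injective_iff_map_eq_zero]
  intro x hx
  rw [del_apply, sub_eq_zero] at hx
  have h : ∀ n, x n = 0 := by
    intro n
    induction n with
    | zero => rw [hx, shift_zero]
    | succ n ih =>
      apply Subtype.ext
      rw [hx, shift_succ, ih]
      rfl
  ext n
  rw [h n]
  rfl

lemma exists_lof (x : ⨁ k, N k) : ∃ n, ∀ m, n ≤ m → ∃ z : N m,
    x - lof R ℕ (fun k => N k) m z ∈ LinearMap.range (del N hN) := by
  induction x using DirectSum.induction_on with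
  | zero => exact ⟨0, fun m _ => ⟨0, by simp⟩⟩
  | of i x =>
    refine ⟨i, fun m hm => ?_⟩
    induction m, hm using Nat.le_induction with
    | base => exact ⟨x, by rw [DirectSum.lof_eq_of, sub_self]; exact Submodule.zero_mem _⟩
    | succ m hm ih =>
      obtain ⟨z, hz⟩ := ih
      refine ⟨Submodule.inclusion (hN m) z, ?_⟩
      have h1 : lof R ℕ (fun k => N k) m z - lof R ℕ (fun k => N k) (m + 1)
          (Submodule.inclusion (hN m) z) ∈ LinearMap.range (del N hN) := by
        refine ⟨lof R ℕ (fun k => N k) m z, ?_⟩
        rw [del_apply, shift, toModule_lof, LinearMap.comp_apply]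
      have h2 := Submodule.add_mem _ hz h1
      rwa [sub_add_sub_cancel] at h2
  | add x y hx hy =>
    obtain ⟨a, ha⟩ := hx
    obtain ⟨b, hb⟩ := hy
    refine ⟨max a b, fun m hm => ?_⟩
    obtain ⟨z, hz⟩ := ha m (le_of_max_le_left hm)
    obtain ⟨z', hz'⟩ := hb m (le_of_max_le_right hm)
    refine ⟨z + z', ?_⟩
    rw [map_add, add_sub_add_comm]
    exact Submodule.add_mem _ hz hz'

lemma total_comp (x : ⨁ k, N k) : total N (del N hN x) = 0 := by
  induction x using DirectSum.induction_on with
  | zero => simp
  | of i x =>
    change total N ((del N hN) (lof R ℕ (fun k => N k) i x)) = 0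
    rw [del_apply, shift, toModule_lof, LinearMap.comp_apply,
      map_sub, total, toModule_lof, toModule_lof]
    exact sub_self _
  | add x y hx hy => rw [map_add, map_add, hx, hy, add_zero]

lemma total_exact : Function.Exact (del N hN) (total N) := by
  intro x
  constructor
  · intro hx
    obtain ⟨n, hn⟩ := exists_lof N hN x
    obtain ⟨z, y, hy⟩ := hn n le_rfl
    have h1 : total N (x - lof R ℕ (fun k => N k) n z) = 0 := by
      rw [← hy]; exact total_comp N hN y
    rw [map_sub, hx, zero_sub, neg_eq_zero, total, toModule_lof] at h1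
    have h2 : z = 0 := Subtype.ext h1
    rw [h2, map_zero, sub_zero] at hy
    exact ⟨y, hy⟩
  · rintro ⟨y, rfl⟩
    exact total_comp N hN y

lemma total_surjective (hU : ∀ x, ∃ n, x ∈ N n) : Function.Surjective (total N) := by
  intro x
  obtain ⟨n, hn⟩ := hU x
  refine ⟨lof R ℕ (fun k => N k) n ⟨x, hn⟩, ?_⟩
  rw [total, toModule_lof]
  rfl

variable [HasDerivedCategory.{w} (ModuleCat.{0} R)]
  {P : ObjectProperty (DerivedCategory (ModuleCat.{0} R))} (hP : IsLocalizing P)
include hP

/-- Increasing unions. -/
lemma IsLocalizing.union (hN : ∀ n, N n ≤ N (n + 1)) (hU : ∀ x, ∃ n, x ∈ N n)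
    (h : ∀ n, Holds P (N n)) : Holds P M :=
  hP.third _ _ (sub_shift_injective N hN) (total_surjective N hU) (total_exact N hN)
    (hP.sum _ h) (hP.sum _ h)

end union

end Pool.Agent.Q37.WN
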