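import Pool.Agent.Q37.WN.Main

open CategoryTheory Limits DirectSum

namespace Pool.Agent.Q37.WN

universe w w'

variable {R A : Type} [CommRing R] [CommRing A] [Algebra R A]
  [HasDerivedCategory.{w} (ModuleCat.{0} R)] [HasDerivedCategory.{w'} (ModuleCat.{0} A)]

instance preservesMapComplex {C D : Type*} [Category* C] [Category* D] [Abelian C] [Abelian D]
    (F : C ⥤ D) [F.Additive] (J : Type*) [Category* J] [HasColimitsOfShape J C]
    [PreservesColimitsOfShape J F] :
    PreservesColimitsOfShape J (F.mapHomologicalComplex (ComplexShape.up ℤ)) :=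
  HomologicalComplex.preservesColimitsOfShape_of_eval _ (fun i =>
    (inferInstance : PreservesColimitsOfShape J
      (HomologicalComplex.eval C (ComplexShape.up ℤ) i ⋙ F)))

variable (R A) in
/-- Restriction of scalars `D(A) ⥤ D(R)`. -/
noncomputable abbrev res : DerivedCategory (ModuleCat.{0} A) ⥤ DerivedCategory (ModuleCat.{0} R) :=
  (ModuleCat.restrictScalars.{0} (algebraMap R A)).mapDerivedCategory

lemma IsLocalizing.restrict {P : ObjectProperty (DerivedCategory (ModuleCat.{0} R))}
    (hP : IsLocalizing P) : IsLocalizing (P.inverseImage (res R A)) where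
  triangulated := by
    have := hP.triangulated
    have := hP.closedIso
    infer_instance
  coproducts J := by
    refine ⟨?_⟩
    rintro X ⟨⟨⟨F, c, hc⟩, hF⟩⟩
    have h1 := hP.closedIso
    have h2 := hP.coproducts J
    let G := (ModuleCat.restrictScalars.{0} (algebraMap R A)).mapHomologicalComplex
      (ComplexShape.up ℤ)
    let K : J → CochainComplex (ModuleCat.{0} A) ℤ := fun j =>
      DerivedCategory.Q.objPreimage (F.obj ⟨j⟩)
    have e1 : DerivedCategory.Q.obj (cop K) ≅ X :=
      IsColimit.coconePointsIsoOfNatIso (copIsColimitQ K) hc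
        (Discrete.natIso fun ⟨j⟩ => DerivedCategory.Q.objObjPreimageIso (F.obj ⟨j⟩))
    have e2 : cop (fun j => G.obj (K j)) ≅ G.obj (cop K) :=
      IsColimit.coconePointsIsoOfNatIso (copIsColimit _)
        (isColimitOfPreserves G (copIsColimit K)) (Discrete.natIso fun _ => Iso.refl _)
    have e3 : DerivedCategory.Q.obj (cop (fun j => G.obj (K j))) ≅ (res R A).obj X :=
      DerivedCategory.Q.mapIso e2 ≪≫
        ((ModuleCat.restrictScalars.{0} (algebraMap R A)).mapDerivedCategoryFactors.app
          (cop K)).symm ≪≫ (res R A).mapIso e1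
    refine P.prop_of_iso e3 (P.prop_of_isColimit (copIsColimitQ _) ?_)
    rintro ⟨j⟩
    have e4 : (res R A).obj (F.obj ⟨j⟩) ≅ DerivedCategory.Q.obj (G.obj (K j)) :=
      (res R A).mapIso (DerivedCategory.Q.objObjPreimageIso (F.obj ⟨j⟩)).symm ≪≫
        (ModuleCat.restrictScalars.{0} (algebraMap R A)).mapDerivedCategoryFactors.app (K j)
    exact P.prop_of_iso e4 (hF ⟨j⟩)

/-- Restriction of scalars on modules. -/
lemma holds_inverseImage_iff {P : ObjectProperty (DerivedCategory (ModuleCat.{0} R))}
    (hP : IsLocalizing P) (M : Type) [AddCommGroup M] [Module A M] [Module R M]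
    [IsScalarTower R A M] :
    Holds (P.inverseImage (res R A)) M ↔ Holds P M := by
  have := hP.closedIso
  have e1 := (ModuleCat.restrictScalars.{0} (algebraMap R A)).mapDerivedCategorySingleFunctor 0
    |>.app (ModuleCat.of A M)
  have e2 : (ModuleCat.restrictScalars.{0} (algebraMap R A)).obj (ModuleCat.of A M) ≅
      ModuleCat.of R M := by
    exact LinearEquiv.toModuleIso (m₁ := Module.compHom M (algebraMap R A))
      (@LinearEquiv.mk R R _ _ (RingHom.id R) (RingHom.id R) _ _ M M _ _
        (Module.compHom M (algebraMap R A)) _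
        (@LinearMap.mk R R _ _ (RingHom.id R) M M _ _ (Module.compHom M (algebraMap R A)) _
          (AddMonoidHom.id M).toAddHom (fun r x => algebraMap_smul A r (x : M))) id
          (fun _ => rfl) (fun _ => rfl))
  exact P.prop_iff_of_iso (e1 ≪≫ (DerivedCategory.singleFunctor _ 0).mapIso e2)

end Pool.Agent.Q37.WN
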